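import Pool.Agent.Q216.CC.Defs

/-!
# Connections between sets of two opposite sides of a (possibly long) rectangle

Critical bond percolation on `ℤ²` (the FK model with `q = 1` at its self-dual point) in the
rectangle `[0, m] × [0, n]` with `n ≤ K m`; the length `m` may be arbitrarily large compared with
`n`. For sets `S`, `T` of points of the left and of the right side at macroscopic distance from the
corners, the probability that `S` is joined to `T` is comparable to the product of the probability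
that the rectangle is crossed, of the `1/3`-capacity of `S` and of the `1/3`-capacity of `T`.
-/

set_option autoImplicit false

namespace Pool.Agent.Results.MP_b3e76a_pr.CrossingCapacity

open Finset Pool.Agent.Q216.CC
open Pool.Agent.Results.MP_b3e76a_pr.BoundaryTouching

theorem join_iff {m n : ℕ} {S T : Finset ℤ} {F : Finset Edge} (hF : F ⊆ H974.RE 0 m 0 n) :
    JoinSets m S T F ↔ Pool.Agent.TH966.CC.Cr m n S T F := by
  have e : ((↑F : Set H974.Edg) ∩ ↑(H974.RE 0 m 0 n)) = ↑F :=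
    Set.inter_eq_left.mpr (by exact_mod_cast hF)
  unfold JoinSets Pool.Agent.TH966.CC.Cr
  rw [e]
  rfl

theorem crossed_iff {m n : ℕ} (hm : 1 ≤ m) {F : Finset Edge} (hF : F ⊆ H974.RE 0 m 0 n) :
    Crossed m n F ↔ H974.LRc 0 m 0 n F := by
  have e : ((↑F : Set H974.Edg) ∩ ↑(H974.RE 0 m 0 n)) = ↑F :=
    Set.inter_eq_left.mpr (by exact_mod_cast hF)
  constructor
  · rintro ⟨s, t, -, -, h⟩
    have h1 : H974.Reach ((↑F : Set H974.Edg) ∩ ↑(H974.RE 0 m 0 n)) ((0 : ℤ), s) ((m : ℤ), t) := by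
      rw [e]; exact h
    exact H974.LRc_of_reach (by omega) h1 rfl rfl
  · rintro ⟨s, t, hs, ht, h⟩
    exact ⟨s, t, hs, ht, h.mono Set.inter_subset_left⟩

theorem prob_crossed {m n : ℕ} (hm : 1 ≤ m) : prob m n (Crossed m n) = H974.hh (1/2) m n := by
  rw [prob_eq' m n (Crossed m n) (H974.LRc 0 m 0 n) (fun F hF => crossed_iff hm hF)]
  have := H974.pr_LRc (1/2) (a := 0) (b := m) (c := 0) (d := n) (S := H974.RE 0 m 0 n)
    H974.LRE_subset_RE
  rw [sub_zero, sub_zero] at this
  exact this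

/-- **Connection probabilities of sets of opposite sides.** -/
theorem result (K : ℕ) : ∃ c₁ c₂ : ℝ, 0 < c₁ ∧ 0 < c₂ ∧ ∀ m n : ℕ, 1 ≤ m → 1 ≤ n →
    n ≤ K * m → ∀ S T : Finset ℤ,
    (∀ x ∈ S, (n : ℤ) ≤ K * x ∧ (n : ℤ) ≤ K * (n - x)) →
    (∀ x ∈ T, (n : ℤ) ≤ K * x ∧ (n : ℤ) ≤ K * (n - x)) →
      c₁ * (prob m n (Crossed m n) * capacity n S * capacity n T) ≤ prob m n (JoinSets m S T) ∧
        prob m n (JoinSets m S T) ≤ c₂ * (prob m n (Crossed m n) * capacity n S * capacity n T) := by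
  rcases Nat.eq_zero_or_pos K with hK | hK
  · refine ⟨1, 1, one_pos, one_pos, fun m n hm hn h1 => ?_⟩
    rw [hK] at h1
    omega
  · obtain ⟨c, hc, h⟩ := Pool.Agent.TH966.CC.cr_low K hK
    obtain ⟨C, hC, h'⟩ := Pool.Agent.TH966.CC.cr_up K hK
    refine ⟨c, C, hc, hC, fun m n hm hn h1 S T hS hT => ?_⟩
    have g1 := h m n (by exact_mod_cast hm) (by exact_mod_cast hn) (by exact_mod_cast h1) S T hS hT
    have g2 := h' m n (by exact_mod_cast hm) (by exact_mod_cast hn) (by exact_mod_cast h1) S T hS hT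
    rw [prob_eq' m n (JoinSets m S T) (Pool.Agent.TH966.CC.Cr m n S T)
      (fun F hF => join_iff hF), capacity_eq, capacity_eq, prob_crossed hm]
    exact ⟨g1, g2⟩

end Pool.Agent.Results.MP_b3e76a_pr.CrossingCapacity
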