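import Pool.Agent.Q216.CC.Defs

/-!
# The interface touches a boundary set with probability comparable to its `1/3`-capacity

The critical FK interface for `q = 1` (bond percolation with `p = 1 / 2`) in the rectangle
`[0, m] × [0, n]` of bounded aspect ratio, with the upper side wired and the other sides free.
For every set `S` of points of the lower side at macroscopic distance from the corners, the
probability that the interface touches the boundary at a point of `S` is, up to constants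
depending only on the aspect ratio and on this distance, the capacity of `S` for the kernel
`((m + 1) / (|x - y| + 1)) ^ (1/3)`, as for chordal SLE₆ and the `1/3`-capacity.
-/

set_option autoImplicit false

namespace Pool.Agent.Results.MP_b3e76a_pr.InterfaceCapacity

open Finset Pool.Agent.Q216.CC
open Pool.Agent.Results.MP_b3e76a_pr.BoundaryTouching

theorem bd_top {m n : ℕ} (hn : 1 ≤ n) {i : ℤ} (h1 : -((m : ℤ) + n) ≤ i)
    (h2 : i ≤ -(n : ℤ)) : bdry m n i = (-(n : ℤ) - i, (n : ℤ)) := by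
  have h3 : i % (2 * ((m : ℤ) + n)) = i + 2 * ((m : ℤ) + n) := by
    rw [Int.emod_eq_iff (by omega)]
    refine ⟨by omega, by omega, ?_⟩
    exact ⟨1, by ring⟩
  unfold bdry
  rw [h3]
  split_ifs with h4 h5 h6
  · omega
  · rw [Prod.mk.injEq]; omega
  · rw [Prod.mk.injEq]; omega
  · omega

theorem bd_bot {m n : ℕ} (hn : 1 ≤ n) {x : ℤ} (h1 : 0 ≤ x) (h2 : x ≤ m) :
    bdry m n x = (x, 0) := by
  have h3 : x % (2 * ((m : ℤ) + n)) = x := Int.emod_eq_of_lt h1 (by omega)
  unfold bdry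
  rw [h3, if_pos h2]

theorem touch_iff {m n : ℕ} (hm : 1 ≤ m) (hn : 1 ≤ n) {S : Finset ℤ}
    (hS : ∀ x ∈ S, 0 ≤ x ∧ x ≤ m) {F : Finset Edge} (hF : F ⊆ H974.RE 0 m 0 n) :
    TouchSet m n S F ↔ Pool.Agent.TH966.CC.Hit m n S F := by
  constructor
  · rintro ⟨x, hx, ht⟩
    have h0 := hS x hx
    rw [touchFree_iff hm hn (by omega) (by omega) hF] at ht
    obtain ⟨i, j, hi, hj, h1⟩ := ht
    have hjx : j = x := by omega
    subst hjx
    have e1 : H731A.bd m n i = (-(n : ℤ) - i, (n : ℤ)) := bd_top hn hi.1 hi.2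
    have e2 : H731A.bd m n j = (j, 0) := bd_bot hn h0.1 h0.2
    rw [e1, e2] at h1
    exact ⟨j, hx, -(n : ℤ) - i, by omega, h1.symm⟩
  · rintro ⟨x, hx, t, ht, h1⟩
    have h0 := hS x hx
    refine ⟨x, hx, ?_⟩
    rw [touchFree_iff hm hn (by omega) (by omega) hF]
    refine ⟨-(n : ℤ) - t, x, by omega, by omega, ?_⟩
    have e1 : H731A.bd m n (-(n : ℤ) - t) = (t, (n : ℤ)) := by
      have := bd_top (m := m) hn (i := -(n : ℤ) - t) (by omega) (by omega)
      rw [show H731A.bd m n (-(n : ℤ) - t) = bdry m n (-(n : ℤ) - t) from rfl, this]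
      rw [Prod.mk.injEq]; omega
    have e2 : H731A.bd m n x = (x, 0) := bd_bot hn h0.1 h0.2
    rw [e1, e2]
    exact h1.symm

/-- **The interface touches `S` with probability comparable to the capacity of `S`.** -/
theorem result (K : ℕ) : ∃ c₁ c₂ : ℝ, 0 < c₁ ∧ 0 < c₂ ∧ ∀ m n : ℕ, 1 ≤ m → 1 ≤ n →
    m ≤ K * n → n ≤ K * m → ∀ S : Finset ℤ,
    (∀ x ∈ S, (m : ℤ) ≤ K * x ∧ (m : ℤ) ≤ K * (m - x)) →
      c₁ * capacity m S ≤ prob m n (TouchSet m n S) ∧
        prob m n (TouchSet m n S) ≤ c₂ * capacity m S := by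
  rcases Nat.eq_zero_or_pos K with hK | hK
  · refine ⟨1, 1, one_pos, one_pos, fun m n hm hn h1 => ?_⟩
    rw [hK] at h1
    omega
  · have hK' : (1 : ℤ) ≤ K := by exact_mod_cast hK
    obtain ⟨c, C, hc, hC, h⟩ := Pool.Agent.TH966.CC.one_cap (K : ℤ) hK'
    refine ⟨c, C, hc, hC, fun m n hm hn h1 h2 S hS => ?_⟩
    have hmn := h m n (by exact_mod_cast hm) (by exact_mod_cast h1) (by exact_mod_cast h2) S hS
    have hS' : ∀ x ∈ S, 0 ≤ x ∧ x ≤ m := fun x hx =>
      Pool.Agent.TH966.CC.Mid.pos hK' (by positivity) (hS x hx)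
    rw [prob_eq' m n (TouchSet m n S) (Pool.Agent.TH966.CC.Hit m n S)
      (fun F hF => touch_iff hm hn hS' hF), capacity_eq]
    exact hmn

end Pool.Agent.Results.MP_b3e76a_pr.InterfaceCapacity
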